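import Mathlib

set_option autoImplicit false

namespace Pool.Agent.Results.MP_52ffe4_co.ChromaticFour

/-!
# The chromatic number of the unit distance graph on `ℚ(√3, √11) × ℚ(√3, √11)`

The field `K = ℚ(√3, √11)` contains `√33`, and `33` is a square in `ℚ₂`; so every element of `K` has
two coordinates in `ℚ₂` (with respect to `1, √3`).  If `x = x₀ + x₁ √3`, `y = y₀ + y₁ √3` satisfy
`x² + y² = 1`, then `a = x₀ + x₁ + y₁ - y₀` and `b = 2 (x₁ + y₁)` are `2`-adic integers which are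
not both even (`key`): `a + b ω` is the leading coordinate of `x + i y` in `ℚ₂(ω)(i)`, whose residue
field is `𝔽₄`.  Choosing representatives of `ℚ₂ / ℤ₂` turns this into a proper colouring with the
four colours `ℤ/2 × ℤ/2`.  The lower bound is the Moser spindle.
-/

/-! ### 2-adic lemmas -/

lemma sq_sub_self_lt (z : ℤ_[2]) : ‖z ^ 2 - z‖ < 1 := by
  have h : PadicInt.toZMod (z ^ 2 - z) = 0 := by
    rw [map_sub, map_pow]
    generalize (PadicInt.toZMod z : ZMod 2) = w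
    revert w; decide
  have h2 : z ^ 2 - z ∈ RingHom.ker (PadicInt.toZMod : ℤ_[2] →+* ZMod 2) := h
  rw [PadicInt.ker_toZMod, IsLocalRing.mem_maximalIdeal, PadicInt.mem_nonunits] at h2
  exact h2

lemma sq_sub_self_lt' (q : ℚ_[2]) (hq : ‖q‖ ≤ 1) : ‖q ^ 2 - q‖ < 1 := by
  obtain ⟨z, rfl⟩ : ∃ z : ℤ_[2], (z : ℚ_[2]) = q := ⟨⟨q, hq⟩, rfl⟩
  have := sq_sub_self_lt z
  rw [PadicInt.norm_def, PadicInt.coe_sub, PadicInt.coe_pow] at this
  exact this

lemma norm_one_add_of_lt (q : ℚ_[2]) (hq : ‖q‖ < 1) : ‖1 + q‖ = 1 := by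
  have h1 : ‖(1 : ℚ_[2])‖ = 1 := norm_one
  have := Padic.add_eq_max_of_ne (p := 2) (q := (1 : ℚ_[2])) (r := q) (by rw [h1]; exact (ne_of_gt hq))
  rw [this, h1, max_eq_left hq.le]

lemma norm_two : ‖(2 : ℚ_[2])‖ = 2⁻¹ := by
  have := Padic.norm_p (p := 2); simpa using this

lemma sqrt33 : ∃ r : ℚ_[2], r ^ 2 = 33 := by
  have h := hensels_lemma (p := 2) (R := ℤ_[2]) (F := (Polynomial.X ^ 2 - Polynomial.C ((33 : ℕ) : ℤ_[2]) : Polynomial ℤ_[2])) (a := 1) ?_
  · obtain ⟨z, hz, -⟩ := h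
    refine ⟨z, ?_⟩
    have h2 : z ^ 2 - ((33 : ℕ) : ℤ_[2]) = 0 := by simpa using hz
    have h3 : z ^ 2 = ((33 : ℕ) : ℤ_[2]) := sub_eq_zero.mp h2
    have h4 := congrArg (fun t : ℤ_[2] => (t : ℚ_[2])) h3
    simp only [PadicInt.coe_pow, PadicInt.coe_natCast] at h4
    rw [h4]; norm_num
  · have e1 : (Polynomial.aeval (1 : ℤ_[2])) (Polynomial.X ^ 2 - Polynomial.C ((33 : ℕ) : ℤ_[2]) : Polynomial ℤ_[2]) = (2 : ℤ_[2]) ^ 5 * (-1) := by
      simp; norm_num
    have e2 : (Polynomial.aeval (1 : ℤ_[2])) (Polynomial.derivative (Polynomial.X ^ 2 - Polynomial.C ((33 : ℕ) : ℤ_[2]) : Polynomial ℤ_[2])) = (2 : ℤ_[2]) := by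
      simp; norm_num
    rw [e1, e2]
    have h2 : ‖(2 : ℤ_[2])‖ = 2⁻¹ := by
      have := PadicInt.norm_p (p := 2); simpa using this
    rw [norm_mul, norm_pow, h2]
    norm_num

/-- the norm form of `ℚ₂(ω)` is unramified -/
lemma norm_form (c d : ℚ_[2]) : ‖c ^ 2 - c * d + d ^ 2‖ = max ‖c‖ ‖d‖ ^ 2 := by
  rcases lt_trichotomy ‖c‖ ‖d‖ with h | h | h
  · rw [max_eq_right h.le]
    have hd : 0 < ‖d‖ := lt_of_le_of_lt (norm_nonneg _) h
    have e : c ^ 2 - c * d + d ^ 2 = d ^ 2 * (1 + ((c / d) ^ 2 - c / d)) := by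
      have : d ≠ 0 := norm_pos_iff.mp hd
      field_simp; ring
    rw [e, norm_mul, norm_one_add_of_lt, norm_pow, mul_one]
    apply sq_sub_self_lt'
    rw [norm_div, div_le_one hd]; exact h.le
  · rw [h, max_self]
    by_cases hd0 : d = 0
    · subst hd0; have hc0 : c = 0 := by simpa using h
      subst hc0; simp
    have hd : 0 < ‖d‖ := norm_pos_iff.mpr hd0
    have e : c ^ 2 - c * d + d ^ 2 = d ^ 2 * (1 + ((c / d) ^ 2 - c / d)) := by
      field_simp; ring
    rw [e, norm_mul, norm_one_add_of_lt, norm_pow, mul_one]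
    apply sq_sub_self_lt'
    rw [norm_div, div_le_one hd]; exact h.le
  · rw [max_eq_left h.le]
    have hc : 0 < ‖c‖ := lt_of_le_of_lt (norm_nonneg _) h
    have e : c ^ 2 - c * d + d ^ 2 = c ^ 2 * (1 + ((d / c) ^ 2 - d / c)) := by
      have : c ≠ 0 := norm_pos_iff.mp hc
      field_simp; ring
    rw [e, norm_mul, norm_one_add_of_lt, norm_pow, mul_one]
    apply sq_sub_self_lt'
    rw [norm_div, div_le_one hc]; exact h.le

lemma norm_form3 (P Q : ℚ_[2]) : ‖P ^ 2 + 3 * Q ^ 2‖ = max ‖P + Q‖ ‖2 * Q‖ ^ 2 := by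
  rw [← norm_form]; congr 1; ring

lemma sub_one_lt (q : ℚ_[2]) (hq : ‖q‖ = 1) : ‖q - 1‖ < 1 := by
  have h := sq_sub_self_lt' q hq.le
  have e : q ^ 2 - q = q * (q - 1) := by ring
  rw [e, norm_mul, hq, one_mul] at h
  exact h

lemma norm_sq_add_sq_eq (x y : ℚ_[2]) (h : ‖x‖ = ‖y‖) (hy : y ≠ 0) :
    ‖x ^ 2 + y ^ 2‖ = ‖y‖ ^ 2 * 2⁻¹ := by
  have hy' : 0 < ‖y‖ := norm_pos_iff.mpr hy
  have hq : ‖x / y‖ = 1 := by rw [norm_div, h, div_self hy'.ne']
  have h1 := sub_one_lt _ hq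
  set z : ℚ_[2] := (x / y - 1) / 2 with hz
  have hz1 : ‖z‖ ≤ 1 := by
    have hlt : ‖(x / y - 1)‖ < 1 := h1
    have : ‖x / y - 1‖ ≤ 2⁻¹ := by
      have := (Padic.norm_le_pow_iff_norm_lt_pow_add_one (p := 2) (x / y - 1) (-1)).mpr (by simpa using hlt)
      simpa using this
    rw [hz, norm_div, norm_two]
    rw [div_le_one (by norm_num)]; exact this
  have e : x ^ 2 + y ^ 2 = y ^ 2 * 2 * (1 + 2 * (z + z ^ 2)) := by
    have : x = y * (1 + 2 * z) := by rw [hz]; field_simp; ring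
    rw [this]; ring
  rw [e, norm_mul, norm_mul, norm_pow, norm_two, norm_one_add_of_lt, mul_one]
  rw [norm_mul, norm_two]
  have : ‖z + z ^ 2‖ ≤ 1 := by
    refine (Padic.nonarchimedean z (z ^ 2)).trans (max_le hz1 ?_)
    rw [norm_pow]; exact pow_le_one₀ (norm_nonneg _) hz1
  linarith

lemma no_half (w y : ℚ_[2]) (hy : y ≠ 0) : ‖w‖ ^ 2 ≠ ‖y‖ ^ 2 * 2⁻¹ := by
  intro h
  have hy' : 0 < ‖y‖ := norm_pos_iff.mpr hy
  have hw : w ≠ 0 := by
    rintro rfl
    rw [norm_zero] at h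
    have : 0 < ‖y‖ ^ 2 * 2⁻¹ := by positivity
    rw [← h] at this
    norm_num at this
  rw [Padic.norm_eq_zpow_neg_valuation hw, Padic.norm_eq_zpow_neg_valuation hy] at h
  set m := w.valuation
  set n := y.valuation
  have h2 : ((2 : ℝ) ^ (-(2 * m) : ℤ)) = (2 : ℝ) ^ (-(2 * n) - 1 : ℤ) := by
    have e1 : ((2 : ℝ) ^ (-(2 * m) : ℤ)) = (((2 : ℕ) : ℝ) ^ (-m)) ^ 2 := by
      rw [← zpow_natCast, ← zpow_mul]; congr 1; push_cast; ring
    have e2 : ((2 : ℝ) ^ (-(2 * n) - 1 : ℤ)) = (((2 : ℕ) : ℝ) ^ (-n)) ^ 2 * 2⁻¹ := by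
      rw [zpow_sub₀ (by norm_num), zpow_one, div_eq_mul_inv]; congr 1
      rw [← zpow_natCast, ← zpow_mul]; congr 1; push_cast; ring
    rw [e1, e2, h]
  have h3 := zpow_right_injective₀ (a := (2 : ℝ)) (by norm_num) (by norm_num) h2
  omega

lemma norm_sq_add_sq_ne (x y : ℚ_[2]) (h : ‖x‖ ≠ ‖y‖) :
    ‖x ^ 2 + y ^ 2‖ = max ‖x‖ ‖y‖ ^ 2 := by
  have h' : ‖x ^ 2‖ ≠ ‖y ^ 2‖ := by
    rw [norm_pow, norm_pow]
    intro h2
    exact h (by rwa [sq_eq_sq₀ (norm_nonneg _) (norm_nonneg _)] at h2)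
  rw [Padic.add_eq_max_of_ne h', norm_pow, norm_pow]
  rcases le_total ‖x‖ ‖y‖ with h3 | h3
  · rw [max_eq_right h3, max_eq_right (by gcongr)]
  · rw [max_eq_left h3, max_eq_left (by gcongr)]

lemma norm_sub_ne (x y : ℚ_[2]) (h : ‖x‖ ≠ ‖y‖) : ‖x - y‖ = max ‖x‖ ‖y‖ := by
  have := Padic.add_eq_max_of_ne (p := 2) (q := x) (r := -y) (by rwa [norm_neg])
  rwa [norm_neg, ← sub_eq_add_neg] at this

/-- the key 2-adic lemma -/
lemma key (x0 x1 y0 y1 : ℚ_[2]) (h1 : x0 ^ 2 + 3 * x1 ^ 2 + (y0 ^ 2 + 3 * y1 ^ 2) = 1)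
    (h2 : x0 * x1 + y0 * y1 = 0) :
    max ‖x0 + x1 + y1 - y0‖ ‖2 * (x1 + y1)‖ = 1 := by
  have hsq : ‖(x0 - y0) ^ 2 + 3 * (x1 + y1) ^ 2‖ = 1 := by
    have h3 : ‖(3 : ℚ_[2])‖ = 1 := by
      have := norm_one_add_of_lt 2 (by rw [norm_two]; norm_num)
      rw [← this]; norm_num
    by_cases hz : x0 = 0 ∧ y0 = 0
    · obtain ⟨rfl, rfl⟩ := hz
      have hm : ‖x1 ^ 2 + y1 ^ 2‖ = 1 := by
        have : (3 : ℚ_[2]) * (x1 ^ 2 + y1 ^ 2) = 1 := by linear_combination h1
        have h4 := congrArg norm this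
        rwa [norm_mul, h3, one_mul, norm_one] at h4
      have hne : ‖x1‖ ≠ ‖y1‖ := by
        intro he
        by_cases hy : y1 = 0
        · subst hy
          have : x1 = 0 := by simpa using he
          subst this
          simp at hm
        · rw [norm_sq_add_sq_eq x1 y1 he hy] at hm
          exact no_half 1 y1 hy (by rw [hm]; simp)
      have hs := norm_sq_add_sq_ne x1 y1 hne
      have e : ((0 : ℚ_[2]) - 0) ^ 2 + 3 * (x1 + y1) ^ 2 = 3 * (x1 - -y1) ^ 2 := by ring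
      rw [e, norm_mul, h3, one_mul, norm_pow, norm_sub_ne _ _ (by rwa [norm_neg]), norm_neg, ← hs, hm]
    · set n := x0 ^ 2 + y0 ^ 2 with hn
      have hid : n * ((x0 - y0) ^ 2 + 3 * (x1 + y1) ^ 2) = (x0 - y0) ^ 2 := by
        rw [hn]
        linear_combination (x0 - y0) ^ 2 * h1 + 6 * (x0 * y1 + y0 * x1) * h2
      have hn2 : n ^ 2 + 3 * (x0 * y1 - x1 * y0) ^ 2 = n := by
        rw [hn]
        linear_combination (x0 ^ 2 + y0 ^ 2) * h1 - 3 * (x0 * x1 + y0 * y1) * h2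
      have hne : ‖x0‖ ≠ ‖y0‖ := by
        intro he
        have hy : y0 ≠ 0 := by
          rintro rfl
          exact hz ⟨by simpa using he, rfl⟩
        have hnn := norm_sq_add_sq_eq x0 y0 he hy
        have hn3 := congrArg norm hn2
        rw [norm_form3, ← hn] at *
        rw [hnn] at hn3
        rcases max_choice ‖n + (x0 * y1 - x1 * y0)‖ ‖2 * (x0 * y1 - x1 * y0)‖ with hc | hc
        · rw [hc] at hn3; exact no_half _ _ hy hn3
        · rw [hc] at hn3; exact no_half _ _ hy hn3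
      have hs := norm_sq_add_sq_ne x0 y0 hne
      have hd := norm_sub_ne x0 y0 hne
      have hpos : 0 < ‖n‖ := by
        rw [hn, hs]
        have : 0 < max ‖x0‖ ‖y0‖ := by
          rcases not_and_or.mp hz with h | h
          · exact lt_max_of_lt_left (norm_pos_iff.mpr h)
          · exact lt_max_of_lt_right (norm_pos_iff.mpr h)
        positivity
      have h5 := congrArg norm hid
      rw [norm_mul, norm_pow, hd, ← hs, ← hn] at h5
      have : ‖n‖ * ‖(x0 - y0) ^ 2 + 3 * (x1 + y1) ^ 2‖ = ‖n‖ * 1 := by rw [h5, mul_one]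
      exact mul_left_cancel₀ hpos.ne' this
  rw [norm_form3] at hsq
  have e : x0 - y0 + (x1 + y1) = x0 + x1 + y1 - y0 := by ring
  rw [e] at hsq
  have h0 : 0 ≤ max ‖x0 + x1 + y1 - y0‖ ‖2 * (x1 + y1)‖ := le_max_of_le_left (norm_nonneg _)
  exact (pow_eq_one_iff_of_nonneg h0 two_ne_zero).mp hsq

/-- a colouring of `ℚ₂` which separates points whose difference is a `2`-adic unit -/
lemma exists_bit : ∃ β : ℚ_[2] → ZMod 2, ∀ a b, ‖a - b‖ ≤ 1 → β a = β b → ‖a - b‖ < 1 := by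
  classical
  set A : AddSubgroup ℚ_[2] := (PadicInt.subring 2).toAddSubgroup with hA
  have hmem : ∀ x : ℚ_[2], x ∈ A ↔ ‖x‖ ≤ 1 := fun x => Iff.rfl
  set rep : ℚ_[2] → ℚ_[2] := fun a => (Quotient.out (QuotientAddGroup.mk a : ℚ_[2] ⧸ A)) with hrep
  have hr : ∀ a, ‖a - rep a‖ ≤ 1 := by
    intro a
    have h := QuotientAddGroup.out_eq' (QuotientAddGroup.mk a : ℚ_[2] ⧸ A)
    have h2 := (QuotientAddGroup.eq (s := A)).mp h
    rw [hmem] at h2
    rw [sub_eq_neg_add]
    exact h2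
  have hr' : ∀ a, ∃ z : ℤ_[2], (z : ℚ_[2]) = a - rep a := fun a => ⟨⟨a - rep a, hr a⟩, rfl⟩
  choose f hf using hr'
  refine ⟨fun a => PadicInt.toZMod (f a), ?_⟩
  intro a b hab hβ
  have hreq : rep a = rep b := by
    rw [hrep]
    have : (QuotientAddGroup.mk a : ℚ_[2] ⧸ A) = QuotientAddGroup.mk b := by
      rw [QuotientAddGroup.eq, hmem, ← norm_neg]
      have e : -(-a + b) = a - b := by ring
      rw [e]; exact hab
    simp only [this]
  have h1 : (PadicInt.toZMod (f a - f b) : ZMod 2) = 0 := by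
    rw [map_sub, sub_eq_zero]; exact hβ
  have h2 : (f a - f b) ∈ RingHom.ker (PadicInt.toZMod : ℤ_[2] →+* ZMod 2) := h1
  rw [PadicInt.ker_toZMod, IsLocalRing.mem_maximalIdeal, PadicInt.mem_nonunits] at h2
  have h3 : ((f a - f b : ℤ_[2]) : ℚ_[2]) = a - b := by
    rw [PadicInt.coe_sub, hf, hf, hreq]; ring
  rw [PadicInt.norm_def, h3] at h2
  exact h2

lemma three_not_sq (c d : ℚ_[2]) (h : c ^ 2 = 3 * d ^ 2) : d = 0 := by
  -- `c² - 3 d² = 0`
  by_contra hd
  have hd' : 0 < ‖d‖ := norm_pos_iff.mpr hd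
  -- q = c / d satisfies q² = 3
  have hq : (c / d) ^ 2 = 3 := by
    rw [div_pow, h]; field_simp
  set q := c / d with hqd
  -- then (q - 1)² + 2 (q-1) = 2 , contradiction with valuations
  have h3 : ‖(3 : ℚ_[2])‖ = 1 := by
    have := norm_one_add_of_lt 2 (by rw [norm_two]; norm_num)
    rw [← this]; norm_num
  have hq1 : ‖q‖ = 1 := by
    have := congrArg norm hq
    rw [norm_pow, h3] at this
    exact (pow_eq_one_iff_of_nonneg (norm_nonneg _) two_ne_zero).mp this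
  have h4 : q ^ 2 + 1 ^ 2 = 2 * 2 := by rw [hq]; norm_num
  have h5 := norm_sq_add_sq_eq q 1 (by rw [hq1, norm_one]) one_ne_zero
  rw [h4, norm_mul, norm_two, norm_one] at h5
  norm_num at h5

/-! ### The graph -/

/-- The field `ℚ(√3, √11)`, as a subfield of `ℝ`. -/
noncomputable def K : IntermediateField ℚ ℝ :=
  IntermediateField.adjoin ℚ {Real.sqrt 3, Real.sqrt 11}

/-- The unit-distance graph on `F × F`, for a subfield `F` of the reals. -/
def unitDistGraph (F : IntermediateField ℚ ℝ) : SimpleGraph (F × F) where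
  Adj p q := ((p.1 : ℝ) - q.1) ^ 2 + ((p.2 : ℝ) - q.2) ^ 2 = 1
  symm := ⟨by
    intro p q h
    rw [← h]; ring⟩
  loopless := ⟨by
    intro p h
    simp at h⟩

lemma sqrt3_mem : Real.sqrt 3 ∈ K := IntermediateField.subset_adjoin _ _ (by simp)
lemma sqrt11_mem : Real.sqrt 11 ∈ K := IntermediateField.subset_adjoin _ _ (by simp)

/-- `√3` in `K` -/
noncomputable def s3 : K := ⟨Real.sqrt 3, sqrt3_mem⟩
/-- `√11` in `K` -/
noncomputable def s11 : K := ⟨Real.sqrt 11, sqrt11_mem⟩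

lemma s3_sq : s3 ^ 2 = 3 := by
  apply Subtype.ext
  show (Real.sqrt 3) ^ 2 = _
  rw [Real.sq_sqrt (by norm_num)]; rfl

lemma s11_sq : s11 ^ 2 = 11 := by
  apply Subtype.ext
  show (Real.sqrt 11) ^ 2 = _
  rw [Real.sq_sqrt (by norm_num)]; rfl

instance : Algebra.IsAlgebraic ℚ K := by
  apply IntermediateField.isAlgebraic_adjoin
  intro x hx
  rcases hx with rfl | hx
  · refine ⟨Polynomial.X ^ 2 - Polynomial.C 3, Polynomial.monic_X_pow_sub_C _ (by norm_num), ?_⟩
    simp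
  · rw [Set.mem_singleton_iff] at hx
    subst hx
    refine ⟨Polynomial.X ^ 2 - Polynomial.C 11, Polynomial.monic_X_pow_sub_C _ (by norm_num), ?_⟩
    simp

/-- 2-adic coordinates on `K` -/
lemma exists_coords : ∃ A B : K → ℚ_[2],
    (∀ x y, A (x - y) = A x - A y ∧ B (x - y) = B x - B y) ∧
    (∀ x y : K, x ^ 2 + y ^ 2 = 1 →
      A x ^ 2 + 3 * B x ^ 2 + (A y ^ 2 + 3 * B y ^ 2) = 1 ∧ A x * B x + A y * B y = 0) := by
  classical
  let Ω := AlgebraicClosure ℚ_[2]
  let j : K →ₐ[ℚ] Ω := IsAlgClosed.lift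
  let i : ℚ_[2] →+* Ω := algebraMap ℚ_[2] Ω
  have hi : Function.Injective i := i.injective
  set s := j s3 with hs
  set t := j s11 with ht
  have hs2 : s ^ 2 = 3 := by rw [hs, ← map_pow, s3_sq]; exact map_ofNat j 3
  have ht2 : t ^ 2 = 11 := by rw [ht, ← map_pow, s11_sq]; exact map_ofNat j 11
  obtain ⟨r, hr⟩ := sqrt33
  have hs0 : s ≠ 0 := by
    intro h; rw [h] at hs2; norm_num at hs2
  -- uniqueness
  have huniq : ∀ a b c d : ℚ_[2], i a + i b * s = i c + i d * s → a = c ∧ b = d := by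
    intro a b c d h
    have h1 : i (a - c) = i (d - b) * s := by rw [map_sub, map_sub]; linear_combination h
    have h2 : (a - c) ^ 2 = 3 * (d - b) ^ 2 := by
      apply hi
      rw [map_pow, map_mul, map_pow, h1, mul_pow, hs2, mul_comm]
      congr 1
    have h3 := three_not_sq _ _ h2
    rw [h3] at h2
    have h4 : a - c = 0 := by
      have : (a - c) ^ 2 = 0 := by rw [h2]; ring
      exact pow_eq_zero_iff (two_ne_zero) |>.mp this
    exact ⟨sub_eq_zero.mp h4, (sub_eq_zero.mp h3).symm⟩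
  have hmul : ∀ a b c d : ℚ_[2], (i a + i b * s) * (i c + i d * s) =
      i (a * c + 3 * b * d) + i (a * d + b * c) * s := by
    intro a b c d
    have h3 : i 3 = 3 := map_ofNat i 3
    simp only [map_add, map_mul, h3]
    linear_combination i b * i d * hs2
  have hinv : ∀ a b : ℚ_[2], ∃ c d : ℚ_[2], (i a + i b * s)⁻¹ = i c + i d * s := by
    intro a b
    by_cases h0 : i a + i b * s = 0
    · exact ⟨0, 0, by rw [h0]; simp⟩
    have hn : a ^ 2 - 3 * b ^ 2 ≠ 0 := by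
      intro h
      have hb := three_not_sq a b (sub_eq_zero.mp h)
      subst hb
      have ha : a = 0 := by
        have : a ^ 2 = 0 := by linear_combination h
        exact pow_eq_zero_iff (two_ne_zero) |>.mp this
      subst ha
      apply h0; simp
    refine ⟨a / (a ^ 2 - 3 * b ^ 2), -b / (a ^ 2 - 3 * b ^ 2), ?_⟩
    apply inv_eq_of_mul_eq_one_right
    rw [hmul]
    have e1 : a * (a / (a ^ 2 - 3 * b ^ 2)) + 3 * b * (-b / (a ^ 2 - 3 * b ^ 2)) = 1 := by
      field_simp; ring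
    have e2 : a * (-b / (a ^ 2 - 3 * b ^ 2)) + b * (a / (a ^ 2 - 3 * b ^ 2)) = 0 := by
      field_simp; ring
    rw [e1, e2]; simp
  have hex' : ∀ (y : ℝ) (hy : y ∈ IntermediateField.adjoin ℚ {Real.sqrt 3, Real.sqrt 11}),
      ∃ a b : ℚ_[2], j ⟨y, hy⟩ = i a + i b * s := by
    intro y hy
    refine IntermediateField.adjoin_induction (F := ℚ)
      (p := fun y hy => ∃ a b : ℚ_[2], j ⟨y, hy⟩ = i a + i b * s) ?_ ?_ ?_ ?_ ?_ hy
    · intro x hx
      rcases hx with rfl | hx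
      · exact ⟨0, 1, by simp [hs, s3]⟩
      · rw [Set.mem_singleton_iff] at hx
        subst hx
        have h1 : (s * t) ^ 2 = (i r) ^ 2 := by
          rw [mul_pow, hs2, ht2, ← map_pow, hr]
          have : i 33 = 33 := map_ofNat i 33
          rw [this]; norm_num
        have h3 : i 3 = 3 := map_ofNat i 3
        have h30 : (3 : Ω) ≠ 0 := by norm_num
        have hr3 : i (r / 3) = i r / 3 := by rw [map_div₀, h3]
        rcases sq_eq_sq_iff_eq_or_eq_neg.mp h1 with h | h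
        · refine ⟨0, r / 3, ?_⟩
          show t = _
          rw [hr3, map_zero, zero_add, ← h]
          have e : s * t / 3 * s = t * (s ^ 2 / 3) := by ring
          rw [e, hs2, div_self h30, mul_one]
        · refine ⟨0, - (r / 3), ?_⟩
          show t = _
          have h' : i r = - (s * t) := by rw [h]; ring
          rw [map_neg, hr3, map_zero, zero_add, h']
          have e : -(-(s * t) / 3) * s = t * (s ^ 2 / 3) := by ring
          rw [e, hs2, div_self h30, mul_one]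
    · intro q
      refine ⟨algebraMap ℚ ℚ_[2] q, 0, ?_⟩
      have h4 : j (algebraMap ℚ K q) = algebraMap ℚ Ω q := AlgHom.commutes j q
      have h5 : i (algebraMap ℚ ℚ_[2] q) = algebraMap ℚ Ω q := (IsScalarTower.algebraMap_apply ℚ ℚ_[2] Ω q).symm
      rw [h5, map_zero, zero_mul, add_zero, ← h4]
      rfl
    · rintro x y hx hy ⟨a, b, h1⟩ ⟨c, d, h2⟩
      refine ⟨a + c, b + d, ?_⟩
      have e : (⟨x + y, add_mem hx hy⟩ : K) = ⟨x, hx⟩ + ⟨y, hy⟩ := rfl
      rw [e, map_add, h1, h2, map_add, map_add]; ring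
    · rintro x hx ⟨a, b, h1⟩
      have e : (⟨x⁻¹, inv_mem hx⟩ : K) = (⟨x, hx⟩ : K)⁻¹ := rfl
      rw [e, map_inv₀, h1]
      exact hinv a b
    · rintro x y hx hy ⟨a, b, h1⟩ ⟨c, d, h2⟩
      refine ⟨a * c + 3 * b * d, a * d + b * c, ?_⟩
      have e : (⟨x * y, mul_mem hx hy⟩ : K) = ⟨x, hx⟩ * ⟨y, hy⟩ := rfl
      rw [e, map_mul, h1, h2, hmul]
  have hex : ∀ x : K, ∃ a b : ℚ_[2], j x = i a + i b * s := fun x => hex' x.1 x.2
  choose A B hAB using hex
  refine ⟨A, B, ?_, ?_⟩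
  · intro x y
    apply huniq
    rw [← hAB, map_sub, hAB x, hAB y, map_sub, map_sub]; ring
  · intro x y hxy
    have h1 : j x ^ 2 + j y ^ 2 = 1 := by rw [← map_pow, ← map_pow, ← map_add, hxy, map_one]
    rw [hAB x, hAB y] at h1
    have h2 : i (A x ^ 2 + 3 * B x ^ 2 + (A y ^ 2 + 3 * B y ^ 2)) + i (2 * (A x * B x + A y * B y)) * s = i 1 + i 0 * s := by
      have h3 : i 3 = 3 := map_ofNat i 3
      have h4 : i 2 = 2 := map_ofNat i 2
      simp only [map_add, map_mul, map_pow, h3, h4, map_one, map_zero]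
      linear_combination h1 - (i (B x) ^ 2 + i (B y) ^ 2) * hs2
    obtain ⟨h5, h6⟩ := huniq _ _ _ _ h2
    refine ⟨h5, ?_⟩
    have : (2 : ℚ_[2]) ≠ 0 := two_ne_zero
    exact (mul_eq_zero.mp h6).resolve_left this

lemma colorable_four : (unitDistGraph K).Colorable 4 := by
  classical
  obtain ⟨A, B, hsub, hunit⟩ := exists_coords
  obtain ⟨β, hβ⟩ := exists_bit
  let f : K × K → ℚ_[2] := fun p => A p.1 + B p.1 + B p.2 - A p.2
  let g : K × K → ℚ_[2] := fun p => 2 * (B p.1 + B p.2)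
  let C : (unitDistGraph K).Coloring (ZMod 2 × ZMod 2) :=
    SimpleGraph.Coloring.mk (fun p => (β (f p), β (g p))) (by
      intro p q hpq heq
      have h1 : (p.1 - q.1 : K) ^ 2 + (p.2 - q.2 : K) ^ 2 = 1 := by
        apply Subtype.ext
        have : ((p.1 : ℝ) - q.1) ^ 2 + ((p.2 : ℝ) - q.2) ^ 2 = 1 := hpq
        push_cast
        exact this
      obtain ⟨h2, h3⟩ := hunit _ _ h1
      have h4 := key _ _ _ _ h2 h3
      have ef : A (p.1 - q.1) + B (p.1 - q.1) + B (p.2 - q.2) - A (p.2 - q.2) = f p - f q := by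
        simp only [f, (hsub _ _).1, (hsub _ _).2]; ring
      have eg : 2 * (B (p.1 - q.1) + B (p.2 - q.2)) = g p - g q := by
        simp only [g, (hsub _ _).2]; ring
      rw [ef, eg] at h4
      rw [Prod.mk.injEq] at heq
      have h5 := hβ _ _ (h4 ▸ le_max_left _ _) heq.1
      have h6 := hβ _ _ (h4 ▸ le_max_right _ _) heq.2
      exact absurd h4 (ne_of_lt (max_lt h5 h6)))
  have := C.colorable
  simpa [ZMod.card] using this

/-- The Moser spindle argument. -/
lemma not_colorable_three : ¬ (unitDistGraph K).Colorable 3 := by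
  rintro ⟨C⟩
  have h3 : s3 ^ 2 = 3 := s3_sq
  have h11 : s11 ^ 2 = 11 := s11_sq
  let O : K × K := (0, 0)
  let A : K × K := (s3 / 2, 1 / 2)
  let B : K × K := (s3 / 2, - (1 / 2))
  let D : K × K := (s3, 0)
  let A' : K × K := (5 * s3 / 12 - s11 / 12, 5 / 12 + s3 * s11 / 12)
  let B' : K × K := (5 * s3 / 12 + s11 / 12, - (5 / 12) + s3 * s11 / 12)
  let D' : K × K := (5 * s3 / 6, s3 * s11 / 6)
  have key2 : ∀ P Q : K × K, (P.1 - Q.1) ^ 2 + (P.2 - Q.2) ^ 2 = 1 → C P ≠ C Q := by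
    intro P Q h
    refine C.valid (show (unitDistGraph K).Adj P Q from ?_)
    have h' := congrArg (fun x : K => (x : ℝ)) h
    push_cast at h'
    exact h'
  have hOA := key2 O A (by simp only [O, A]; linear_combination (1 / 4) * h3)
  have hOB := key2 O B (by simp only [O, B]; linear_combination (1 / 4) * h3)
  have hAB := key2 A B (by simp only [A, B]; ring)
  have hAD := key2 A D (by simp only [A, D]; linear_combination (1 / 4) * h3)
  have hBD := key2 B D (by simp only [B, D]; linear_combination (1 / 4) * h3)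
  have hOA' := key2 O A' (by
    simp only [O, A']; linear_combination (25 / 144 + s11 ^ 2 / 144) * h3 + (4 / 144) * h11)
  have hOB' := key2 O B' (by
    simp only [O, B']; linear_combination (25 / 144 + s11 ^ 2 / 144) * h3 + (4 / 144) * h11)
  have hAB' := key2 A' B' (by simp only [A', B']; linear_combination (4 / 144) * h11)
  have hAD' := key2 A' D' (by
    simp only [A', D']; linear_combination (25 / 144 + s11 ^ 2 / 144) * h3 + (4 / 144) * h11)
  have hBD' := key2 B' D' (by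
    simp only [B', D']; linear_combination (25 / 144 + s11 ^ 2 / 144) * h3 + (4 / 144) * h11)
  have hDD' := key2 D D' (by
    simp only [D, D']; linear_combination (1 / 36 + s11 ^ 2 / 36) * h3 + (3 / 36) * h11)
  have fin3 : ∀ o a b d : Fin 3, o ≠ a → o ≠ b → a ≠ b → a ≠ d → b ≠ d → o = d := by decide
  have e1 := fin3 _ _ _ _ hOA hOB hAB hAD hBD
  have e2 := fin3 _ _ _ _ hOA' hOB' hAB' hAD' hBD'
  exact hDD' (e1.symm.trans e2)

/-- **The chromatic number of the unit distance graph on `ℚ(√3, √11) × ℚ(√3, √11)` is `4`.** -/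
theorem result : (unitDistGraph K).chromaticNumber = 4 := by
  refine le_antisymm colorable_four.chromaticNumber_le ?_
  have h2 := not_colorable_three
  rw [← SimpleGraph.chromaticNumber_le_iff_colorable] at h2
  push Not at h2
  exact Order.add_one_le_of_lt h2

end Pool.Agent.Results.MP_52ffe4_co.ChromaticFour
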